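import Pool.Agent.VM.StmtsH
import Pool.Agent.Helper69_Weyl.Divisor

/-! HUA, module OME: powers of the number of prime factors. -/

set_option autoImplicit false

namespace Pool.Agent.VM.H2

open Pool.Agent.VM

theorem two_pow_le (u : ℕ) (hu : 1 ≤ u) : 2 ^ u.primeFactors.card ≤ u.divisors.card := by
  rw [Nat.card_divisors (by omega), ← Finset.prod_const]
  apply Finset.prod_le_prod' 
  intro p hp
  have h1 : p.Prime := Nat.prime_of_mem_primeFactors hp
  have h2 : 0 < u.factorization p := h1.factorization_pos_of_dvd (by omega)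
    (Nat.dvd_of_mem_primeFactors hp)
  omega

theorem ome : OmeStmt := by
  intro A ε hA hε
  obtain ⟨m, hm⟩ := pow_unbounded_of_one_lt A (by norm_num : (1 : ℝ) < 2)
  obtain ⟨C, hC1, hCu⟩ := Pool.Agent.Helper69_Weyl.exists_card_divisors_le (ε / (m + 1)) (by positivity)
  have hC : 0 < C := by linarith
  refine ⟨C ^ (m + 1), by positivity, fun u hu => ?_⟩
  have h1 : A ≤ (2 : ℝ) ^ (m + 1) := hm.le.trans (pow_le_pow_right₀ (by norm_num) (by omega))
  have h2 : ((2 : ℝ) ^ u.primeFactors.card) ≤ (u.divisors.card : ℝ) := by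
    exact_mod_cast two_pow_le u hu
  calc A ^ u.primeFactors.card ≤ ((2 : ℝ) ^ (m + 1)) ^ u.primeFactors.card := by
        gcongr
    _ = ((2 : ℝ) ^ u.primeFactors.card) ^ (m + 1) := by rw [← pow_mul, ← pow_mul, mul_comm]
    _ ≤ (C * (u : ℝ) ^ (ε / (m + 1))) ^ (m + 1) := by
        gcongr
        exact h2.trans (hCu u (by omega))
    _ = C ^ (m + 1) * (u : ℝ) ^ ε := by
        rw [mul_pow, ← Real.rpow_natCast ((u : ℝ) ^ (ε / (m + 1))), ← Real.rpow_mul (by positivity)]
        congr 2
        push_cast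
        field_simp

end Pool.Agent.VM.H2
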